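import Mathlib
set_option autoImplicit false

namespace Pool.Agent.TH297.FS

/-- An abstract system of nested sets (balls) and of permutations that are good (local
similarities) on a ball. -/
structure Sys (X : Type) where
  Ball : Set X → Prop
  nonempty : ∀ B, Ball B → B.Nonempty
  laminar : ∀ B B', Ball B → Ball B' → (B ∩ B').Nonempty → B ⊆ B' ∨ B' ⊆ B
  fin_above : ∀ B, Ball B → {B' | Ball B' ∧ B ⊆ B'}.Finite
  LS : Equiv.Perm X → Set X → Prop
  ls_ball : ∀ g B, LS g B → Ball (g '' B)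
  one : ∀ B, Ball B → LS 1 B
  inv : ∀ g B, LS g B → LS g⁻¹ (g '' B)
  mul : ∀ g g' B, LS g B → LS g' (g '' B) → LS (g' * g) B
  res : ∀ g B B', LS g B → Ball B' → B' ⊆ B → LS g B'
  fin : ∀ B B' : Set X, {r : B → X | ∃ g : Equiv.Perm X, LS g B ∧ g '' B = B' ∧
    r = fun y : B => g (y : X)}.Finite

variable {X : Type} (S : Sys X) (A : ℕ → Equiv.Perm X)

/-- The product of `j` consecutive letters starting with the letter number `φ`. -/
def Pr (φ : ℕ) : ℕ → Equiv.Perm X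
  | 0 => 1
  | j + 1 => A (φ + j) * Pr φ j

theorem Pr_add (φ i j : ℕ) : Pr A φ (i + j) = Pr A (φ + i) j * Pr A φ i := by
  induction j with
  | zero => simp [Pr]
  | succ j ih =>
    rw [← Nat.add_assoc, Pr, Pr, ih, mul_assoc, Nat.add_assoc]

theorem Pr_img (φ i j : ℕ) (B : Set X) :
    Pr A φ (i + j) '' B = Pr A (φ + i) j '' (Pr A φ i '' B) := by
  rw [Pr_add, Set.image_image]
  rfl

/-- Good up to time `j`. -/
def Gd (φ : ℕ) (B : Set X) (j : ℕ) : Prop := ∀ i ≤ j, S.LS (Pr A φ i) B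

variable {S A}

theorem Gd.mono {φ : ℕ} {B : Set X} {i j : ℕ} (h : Gd S A φ B j) (hij : i ≤ j) : Gd S A φ B i :=
  fun i' hi' => h i' (hi'.trans hij)

theorem Gd.zero {φ : ℕ} {B : Set X} (h : S.Ball B) : Gd S A φ B 0 := by
  intro i hi
  obtain rfl : i = 0 := by omega
  exact S.one B h

theorem Gd.res {φ : ℕ} {B B' : Set X} {j : ℕ} (h : Gd S A φ B j) (h1 : S.Ball B')
    (h2 : B' ⊆ B) : Gd S A φ B' j :=
  fun i hi => S.res _ _ _ (h i hi) h1 h2

theorem Gd.ball {φ : ℕ} {B : Set X} {j : ℕ} (h : Gd S A φ B j) : S.Ball (Pr A φ j '' B) :=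
  S.ls_ball _ _ (h j le_rfl)

theorem Gd.add {φ : ℕ} {B : Set X} {i j : ℕ} (h : Gd S A φ B i)
    (h' : Gd S A (φ + i) (Pr A φ i '' B) j) : Gd S A φ B (i + j) := by
  intro i' hi'
  rcases le_total i' i with hle | hle
  · exact h i' hle
  · obtain ⟨j', rfl⟩ := Nat.exists_eq_add_of_le hle
    rw [Pr_add]
    exact S.mul _ _ _ (h i le_rfl) (h' j' (by omega))

theorem Gd.tail {φ : ℕ} {B : Set X} {i j : ℕ} (h : Gd S A φ B (i + j)) :
    Gd S A (φ + i) (Pr A φ i '' B) j := by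
  intro j' hj'
  have h1 := h (i + j') (by omega)
  have h2 := S.inv _ _ (h i (by omega))
  have h3 : ((Pr A φ i)⁻¹ : Equiv.Perm X) '' (Pr A φ i '' B) = B := by
    rw [Set.image_image]; simp
  have h4 := S.mul _ (Pr A φ (i + j')) _ h2 (by rw [h3]; exact h1)
  have h5 : Pr A φ (i + j') * (Pr A φ i)⁻¹ = Pr A (φ + i) j' := by
    rw [Pr_add]; group
  rwa [h5] at h4

theorem Gd.succ {φ : ℕ} {B : Set X} {j : ℕ} (h : Gd S A φ B j)
    (h' : S.LS (A (φ + j)) (Pr A φ j '' B)) : Gd S A φ B (j + 1) := by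
  intro i hi
  rcases Nat.lt_or_ge i (j + 1) with hlt | hge
  · exact h i (by omega)
  · obtain rfl : i = j + 1 := by omega
    exact S.mul _ _ _ (h j le_rfl) h'

variable (S A) in
/-- The ball `B` is good exactly up to time `v`. -/
def Tv (φ : ℕ) (B : Set X) (v : ℕ) : Prop := Gd S A φ B v ∧ ¬ Gd S A φ B (v + 1)

theorem Tv.le {φ : ℕ} {B : Set X} {v j : ℕ} (h : Tv S A φ B v) (hj : Gd S A φ B j) : j ≤ v := by
  by_contra hc
  exact h.2 (hj.mono (by omega))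

theorem exists_Tv {φ : ℕ} {B : Set X} (hB : S.Ball B) (h : ¬ ∀ j, Gd S A φ B j) :
    ∃ v, Tv S A φ B v := by
  classical
  push Not at h
  obtain ⟨hn, hmin⟩ := (⟨Nat.find_spec h, fun k hk => Nat.find_min h hk⟩ :
    ¬ Gd S A φ B (Nat.find h) ∧ ∀ k, k < Nat.find h → ¬ ¬ Gd S A φ B k)
  rcases Nat.eq_zero_or_pos (Nat.find h) with h0 | hp
  · rw [h0] at hn
    exact absurd (Gd.zero hB) hn
  · refine ⟨Nat.find h - 1, ?_, ?_⟩
    · exact not_not.mp (hmin _ (by omega))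
    · rwa [Nat.sub_add_cancel hp]

theorem Tv.bad {φ : ℕ} {B : Set X} {v : ℕ} (h : Tv S A φ B v) :
    ¬ S.LS (A (φ + v)) (Pr A φ v '' B) :=
  fun h' => h.2 (h.1.succ h')

variable (S) in
/-- The number of balls strictly above `B` and contained in `E`. -/
noncomputable def rk (B E : Set X) : ℕ := {B' | S.Ball B' ∧ B ⊂ B' ∧ B' ⊆ E}.ncard

theorem rk_finite {B : Set X} (hB : S.Ball B) (E : Set X) :
    {B' | S.Ball B' ∧ B ⊂ B' ∧ B' ⊆ E}.Finite :=
  (S.fin_above B hB).subset fun _ h => ⟨h.1, h.2.1.subset⟩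

theorem rk_image {g : Equiv.Perm X} {B E : Set X} (hB : S.Ball B) (hg : S.LS g E) :
    rk S (g '' B) (g '' E) ≤ rk S B E := by
  have hsub : {B' | S.Ball B' ∧ g '' B ⊂ B' ∧ B' ⊆ g '' E} ⊆
      (fun B' => g '' B') '' {B' | S.Ball B' ∧ B ⊂ B' ∧ B' ⊆ E} := by
    rintro B' ⟨h1, h2, h3⟩
    have h4 : S.Ball ((g⁻¹ : Equiv.Perm X) '' B') :=
      S.ls_ball _ _ (S.res _ _ _ (S.inv _ _ hg) h1 h3)
    have h5 : g '' ((g⁻¹ : Equiv.Perm X) '' B') = B' := by rw [Set.image_image]; simp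
    refine ⟨(g⁻¹ : Equiv.Perm X) '' B', ⟨h4, ?_, ?_⟩, h5⟩
    · rw [← h5] at h2
      exact ⟨(Set.image_subset_image_iff g.injective).mp h2.1,
        fun h => h2.2 (Set.image_mono h)⟩
    · rw [← h5] at h3
      exact (Set.image_subset_image_iff g.injective).mp h3
  calc rk S (g '' B) (g '' E) ≤ ((fun B' => g '' B') '' {B' | S.Ball B' ∧ B ⊂ B' ∧ B' ⊆ E}).ncard :=
        Set.ncard_le_ncard hsub ((rk_finite hB E).image _)
    _ ≤ _ := Set.ncard_image_le (rk_finite hB E)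

theorem rk_lt {B P Q : Set X} (hB : S.Ball B) (hQ : S.Ball Q) (h1 : B ⊆ P) (h2 : P ⊂ Q) :
    rk S B P < rk S B Q := by
  refine Set.ncard_lt_ncard ⟨?_, ?_⟩ (rk_finite hB Q)
  · rintro B' ⟨h3, h4, h5⟩
    exact ⟨h3, h4, h5.trans h2.subset⟩
  · intro h
    have h3 : Q ∈ {B' | S.Ball B' ∧ B ⊂ B' ∧ B' ⊆ P} := h ⟨hQ, lt_of_le_of_lt h1 h2, le_rfl⟩
    exact h2.2 h3.2.2

variable (S) in
/-- The balls containing a piece. -/
def KK (P : Set (Set X)) : Set (Set X) := {B | S.Ball B ∧ ∃ p ∈ P, p ⊆ B}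

variable {P : Set (Set X)} (hPb : ∀ p ∈ P, S.Ball p) (hPc : ∀ x, ∃ p ∈ P, x ∈ p)

include hPb hPc in
theorem small {B : Set X} (hB : S.Ball B) (h : B ∉ KK S P) : ∃ p ∈ P, B ⊂ p := by
  obtain ⟨x, hx⟩ := S.nonempty B hB
  obtain ⟨p, hp, hxp⟩ := hPc x
  rcases S.laminar B p hB (hPb p hp) ⟨x, hx, hxp⟩ with h1 | h1
  · refine ⟨p, hp, h1, fun h2 => h ⟨hB, p, hp, h2⟩⟩
  · exact absurd ⟨hB, p, hp, h1⟩ h

theorem mem_KK {p : Set X} (hPb : ∀ p ∈ P, S.Ball p) (hp : p ∈ P) : p ∈ KK S P :=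
  ⟨hPb p hp, p, hp, le_rfl⟩

include hPb hPc in
/-- The return lemma. -/
theorem ret (hA : ∀ i, ∀ p ∈ P, S.LS (A i) p) (u : ℕ) : ∀ (r φ : ℕ) (B E : Set X), S.Ball B →
    E ∈ KK S P → B ⊆ E → rk S B E ≤ r →
    (∀ j E', Gd S A φ B j → E' ∈ KK S P → Pr A φ j '' B ⊂ E' → ∃ v ≤ u, Tv S A (φ + j) E' v) →
    ∃ j ≤ r * u, Gd S A φ B j ∧ Pr A φ j '' B ∈ KK S P := by
  intro r
  induction r with
  | zero =>
    intro φ B E hB hE hBE hr H
    by_cases hBK : B ∈ KK S P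
    · exact ⟨0, by simp, Gd.zero hB, by simpa [Pr] using hBK⟩
    · exfalso
      have hss : B ⊂ E := by
        refine ⟨hBE, fun h => hBK ?_⟩
        rw [Set.Subset.antisymm hBE h]; exact hE
      have h0 : rk S B E = 0 := by omega
      rw [rk, Set.ncard_eq_zero (rk_finite hB E)] at h0
      have : E ∈ {B' | S.Ball B' ∧ B ⊂ B' ∧ B' ⊆ E} := ⟨hE.1, hss, le_rfl⟩
      rw [h0] at this
      exact this
  | succ r ih =>
    intro φ B E hB hE hBE hr H
    by_cases hBK : B ∈ KK S P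
    · exact ⟨0, by simp, Gd.zero hB, by simpa [Pr] using hBK⟩
    · have hss : B ⊂ E := by
        refine ⟨hBE, fun h => hBK ?_⟩
        rw [Set.Subset.antisymm hBE h]; exact hE
      obtain ⟨v, hvu, hv⟩ := H 0 E (Gd.zero hB) hE (by simpa [Pr] using hss)
      rw [Nat.add_zero] at hv
      have hGB : Gd S A φ B v := hv.1.res hB hBE
      by_cases hBK' : Pr A φ v '' B ∈ KK S P
      · refine ⟨v, ?_, hGB, hBK'⟩
        calc v ≤ u := hvu
          _ ≤ (r + 1) * u := Nat.le_mul_of_pos_left u (by omega)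
      · obtain ⟨p, hp, hBp⟩ := small hPb hPc hGB.ball hBK'
        have hQ := hv.1.ball
        have hbad := hv.bad
        have hpQ : p ⊂ Pr A φ v '' E := by
          obtain ⟨x, hx⟩ := S.nonempty _ hGB.ball
          have hxE : x ∈ Pr A φ v '' E := Set.image_mono hBE hx
          have hnot : ¬ Pr A φ v '' E ⊆ p := fun h =>
            hbad (S.res _ _ _ (hA _ p hp) hQ h)
          rcases S.laminar p _ (hPb p hp) hQ ⟨x, hBp.1 hx, hxE⟩ with h1 | h1
          · exact ⟨h1, hnot⟩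
          · exact absurd h1 hnot
        have h1 : rk S (Pr A φ v '' B) p < rk S (Pr A φ v '' B) (Pr A φ v '' E) :=
          rk_lt hGB.ball hQ hBp.1 hpQ
        have h2 := rk_image (S := S) (g := Pr A φ v) hB (hv.1 v le_rfl)
        obtain ⟨j, hj, h3, h4⟩ := ih (φ + v) (Pr A φ v '' B) p hGB.ball (mem_KK hPb hp) hBp.1
          (by omega) (by
            intro j E' h5 h6 h7
            rw [← Pr_img] at h7
            have := H (v + j) E' (hGB.add h5) h6 h7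
            rwa [← Nat.add_assoc] at this)
        refine ⟨v + j, ?_, hGB.add h3, ?_⟩
        · calc v + j ≤ u + r * u := Nat.add_le_add hvu hj
            _ = (r + 1) * u := by ring
        · rw [Pr_img]; exact h4

end Pool.Agent.TH297.FS
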