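import Mathlib
import Pool.Agent.TH297.FS.A
set_option autoImplicit false

namespace Pool.Agent.TH297.FS

variable {X : Type} {S : Sys X} {A : ℕ → Equiv.Perm X} {n : ℕ}

theorem Pr_mod (hper : ∀ i, A (i + n) = A i) (φ j : ℕ) : Pr A (φ % n) j = Pr A φ j := by
  have hp : Function.Periodic A n := hper
  induction j with
  | zero => rfl
  | succ j ih =>
    rw [Pr, Pr, ih]
    congr 1
    have h1 : A (φ + j) = A ((φ + j) % n) := (hp.map_mod_nat _).symm
    have h2 : A (φ % n + j) = A ((φ % n + j) % n) := (hp.map_mod_nat _).symm
    rw [h1, h2, Nat.mod_add_mod]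

theorem Gd_mod (hper : ∀ i, A (i + n) = A i) (φ : ℕ) (B : Set X) (j : ℕ) :
    Gd S A (φ % n) B j ↔ Gd S A φ B j := by
  simp only [Gd, Pr_mod hper]

theorem Tv_mod (hper : ∀ i, A (i + n) = A i) (φ : ℕ) (B : Set X) (j : ℕ) :
    Tv S A (φ % n) B j ↔ Tv S A φ B j := by
  simp only [Tv, Gd_mod hper]

theorem Tv.unique {φ : ℕ} {B : Set X} {v v' : ℕ} (h : Tv S A φ B v) (h' : Tv S A φ B v') :
    v = v' := le_antisymm (h'.le h.1) (h.le h'.1)

variable {P : Set (Set X)} (hPb : ∀ p ∈ P, S.Ball p) (hPc : ∀ x, ∃ p ∈ P, x ∈ p)

/-- The finite set of values. -/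
theorem vals_finite (hper : ∀ i, A (i + n) = A i) (hn : 0 < n) (hK : (KK S P).Finite) :
    ∃ V : Finset ℕ, V.card ≤ n * (KK S P).ncard ∧
      (∀ v, v ∈ V ↔ ∃ φ, ∃ K ∈ KK S P, Tv S A φ K v) := by
  classical
  let f : ℕ × Set X → ℕ := fun a => if h : ∃ v, Tv S A a.1 a.2 v then Classical.choose h else 0
  have hf : ∀ φ K v, Tv S A φ K v → f (φ, K) = v := by
    intro φ K v h
    have hex : ∃ v, Tv S A φ K v := ⟨v, h⟩
    have : f (φ, K) = Classical.choose hex := dif_pos hex
    rw [this]
    exact (Classical.choose_spec hex).unique h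
  let V : Finset ℕ := ((Finset.range n ×ˢ hK.toFinset).image f).filter
    (fun v => ∃ φ, ∃ K ∈ KK S P, Tv S A φ K v)
  refine ⟨V, ?_, ?_⟩
  · calc V.card ≤ ((Finset.range n ×ˢ hK.toFinset).image f).card := Finset.card_filter_le _ _
      _ ≤ (Finset.range n ×ˢ hK.toFinset).card := Finset.card_image_le
      _ = n * (KK S P).ncard := by
        rw [Finset.card_product, Finset.card_range, Set.ncard_eq_toFinset_card _ hK]
  · intro v
    constructor
    · intro h
      exact (Finset.mem_filter.mp h).2
    · rintro ⟨φ, K, hKK, h⟩
      refine Finset.mem_filter.mpr ⟨Finset.mem_image.mpr ⟨(φ % n, K), ?_, ?_⟩, φ, K, hKK, h⟩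
      · rw [Finset.mem_product]
        exact ⟨Finset.mem_range.mpr (Nat.mod_lt _ hn), hK.mem_toFinset.mpr hKK⟩
      · exact hf _ _ _ ((Tv_mod hper _ _ _).mpr h)

include hPb hPc in
theorem vals_bound (hper : ∀ i, A (i + n) = A i) (hn : 0 < n) (hK : (KK S P).Finite)
    (hA : ∀ i, ∀ p ∈ P, S.LS (A i) p) (κ : ℕ)
    (hκ : ∀ i, ∀ K ∈ KK S P, S.LS (A i) K → ∀ E, rk S (A i '' K) E ≤ κ)
    {φ : ℕ} {K : Set X} (hKK : K ∈ KK S P) {v : ℕ} (hv : Tv S A φ K v) :
    v ≤ (κ + 2) ^ (n * (KK S P).ncard) := by
  classical
  obtain ⟨V, hVc, hV⟩ := vals_finite (S := S) (P := P) hper hn hK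
  have main : ∀ v, v ∈ V → v ≤ (κ + 2) ^ (V.filter (fun u => u < v)).card := by
    intro v
    induction v using Nat.strong_induction_on with
    | _ v ih =>
      intro hvV
      obtain ⟨φ, K, hKK, hT⟩ := (hV v).mp hvV
      rcases Nat.eq_zero_or_pos v with rfl | hpos
      · exact Nat.zero_le _
      · -- the largest smaller value
        let u : ℕ := (V.filter (fun u => u < v)).sup id
        have hle : ∀ u', u' ∈ V → u' < v → u' ≤ u := fun u' h1 h2 =>
          Finset.le_sup (f := id) (Finset.mem_filter.mpr ⟨h1, h2⟩)
        have key : v ≤ 1 + (κ + 1) * u := by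
          have hG1 : Gd S A φ K 1 := hT.1.mono hpos
          have hA1 : S.LS (A φ) K := by
            have := hG1 1 le_rfl
            simpa [Pr] using this
          have hK1 : Pr A φ 1 '' K = A φ '' K := by simp [Pr]
          have hret : ∃ j ≤ κ * u, Gd S A (φ + 1) (Pr A φ 1 '' K) j ∧
              Pr A (φ + 1) j '' (Pr A φ 1 '' K) ∈ KK S P := by
            by_cases hin : Pr A φ 1 '' K ∈ KK S P
            · exact ⟨0, by simp, Gd.zero hG1.ball, by simpa [Pr] using hin⟩
            · obtain ⟨p, hp, hBp⟩ := small hPb hPc hG1.ball hin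
              refine ret hPb hPc hA u κ (φ + 1) _ p hG1.ball (mem_KK hPb hp) hBp.1 ?_ ?_
              · rw [hK1]
                exact hκ φ K hKK hA1 p
              · intro j E' h1 h2 h3
                have hGj : Gd S A φ K (1 + j) := hG1.add h1
                have hle' : ∀ i, Gd S A (φ + 1 + j) E' i → 1 + j + i ≤ v := by
                  intro i hi
                  have h4 : Gd S A (φ + 1 + j) (Pr A (φ + 1) j '' (Pr A φ 1 '' K)) i :=
                    hi.res h1.ball h3.1
                  have h5 : Gd S A φ K (1 + j + i) := by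
                    refine hGj.add ?_
                    rw [Pr_img, ← Nat.add_assoc]
                    exact h4
                  exact hT.le h5
                have hex : ∃ v', Tv S A (φ + 1 + j) E' v' := by
                  refine exists_Tv h2.1 ?_
                  intro hall
                  have := hle' (v + 1) (hall _)
                  omega
                obtain ⟨v', hv'⟩ := hex
                have h6 := hle' v' hv'.1
                exact ⟨v', hle v' ((hV v').mpr ⟨_, E', h2, hv'⟩) (by omega), hv'⟩
          obtain ⟨j, hj, h1, h2⟩ := hret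
          have hGj : Gd S A φ K (1 + j) := hG1.add h1
          have hle2 : 1 + j ≤ v := hT.le hGj
          have hT' : Tv S A (φ + (1 + j)) (Pr A φ (1 + j) '' K) (v - (1 + j)) := by
            constructor
            · refine Gd.tail ?_
              rw [Nat.add_sub_cancel' hle2]
              exact hT.1
            · intro hcon
              have := hGj.add hcon
              rw [← Nat.add_assoc, Nat.add_sub_cancel' hle2] at this
              exact hT.2 this
          have h3 : Pr A φ (1 + j) '' K ∈ KK S P := by rw [Pr_img]; exact h2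
          have h4 := hle _ ((hV (v - (1 + j))).mpr ⟨_, _, h3, hT'⟩) (by omega)
          calc v = 1 + j + (v - (1 + j)) := by omega
            _ ≤ 1 + κ * u + u := by omega
            _ = 1 + (κ + 1) * u := by ring
        rcases (V.filter (fun u => u < v)).eq_empty_or_nonempty with he | hne
        · have hu0 : u = 0 := by
            show (V.filter (fun u => u < v)).sup id = 0
            rw [he]; rfl
          rw [hu0] at key
          have : v ≤ 1 := by simpa using key
          exact this.trans (Nat.one_le_pow _ _ (by omega))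
        · obtain ⟨u', hu', he⟩ := Finset.exists_mem_eq_sup _ hne (id : ℕ → ℕ)
          have hu : u = u' := he
          obtain ⟨huV, huv⟩ := Finset.mem_filter.mp hu'
          have h1 := ih u' huv huV
          have h2 : (V.filter (fun x => x < u')).card + 1 ≤ (V.filter (fun x => x < v)).card := by
            have h3 : insert u' (V.filter (fun x => x < u')) ⊆ V.filter (fun x => x < v) := by
              intro x hx
              rcases Finset.mem_insert.mp hx with rfl | hx
              · exact Finset.mem_filter.mpr ⟨huV, huv⟩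
              · have := Finset.mem_filter.mp hx
                exact Finset.mem_filter.mpr ⟨this.1, this.2.trans huv⟩
            have h4 : u' ∉ V.filter (fun x => x < u') := by simp
            rw [← Finset.card_insert_of_notMem h4]
            exact Finset.card_le_card h3
          have h5 : 1 ≤ (κ + 2) ^ (V.filter (fun x => x < u')).card := Nat.one_le_pow _ _ (by omega)
          calc v ≤ 1 + (κ + 1) * u := key
            _ = 1 + (κ + 1) * u' := by rw [hu]
            _ ≤ 1 + (κ + 1) * (κ + 2) ^ (V.filter (fun x => x < u')).card := by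
              have := Nat.mul_le_mul_left (κ + 1) h1
              omega
            _ ≤ (κ + 2) ^ (V.filter (fun x => x < u')).card +
                (κ + 1) * (κ + 2) ^ (V.filter (fun x => x < u')).card := by omega
            _ = (κ + 2) ^ ((V.filter (fun x => x < u')).card + 1) := by ring
            _ ≤ _ := Nat.pow_le_pow_right (by omega) h2
  refine (main v ((hV v).mpr ⟨φ, K, hKK, hv⟩)).trans (Nat.pow_le_pow_right (by omega) ?_)
  exact (Finset.card_filter_le _ _).trans hVc

end Pool.Agent.TH297.FS
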