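import Mathlib
import Pool.Agent.TH297.FS.B
set_option autoImplicit false

namespace Pool.Agent.TH297.FS

variable {X : Type} {S : Sys X} {A : ℕ → Equiv.Perm X} {n : ℕ}

theorem Pr_shift (hper : ∀ i, A (i + n) = A i) (φ t j : ℕ) : Pr A (φ + n * t) j = Pr A φ j := by
  rw [← Pr_mod hper (φ + n * t), Nat.add_mul_mod_self_left, Pr_mod hper]

theorem Gd_shift (hper : ∀ i, A (i + n) = A i) (φ t : ℕ) (B : Set X) (j : ℕ) :
    Gd S A (φ + n * t) B j ↔ Gd S A φ B j := by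
  simp only [Gd, Pr_shift hper]

theorem Pr_pow (hper : ∀ i, A (i + n) = A i) (φ D : ℕ) : Pr A φ (n * D) = (Pr A φ n) ^ D := by
  induction D with
  | zero => simp [Pr]
  | succ D ih =>
    rw [Nat.mul_succ, Pr_add, Pr_shift hper, ih, pow_succ']

theorem Pr_one_all (hper : ∀ i, A (i + n) = A i) {m : ℕ} (htor : Pr A 0 (n * m) = 1) (φ : ℕ) :
    Pr A φ (n * m) = 1 := by
  have h1 : Pr A 0 (φ + n * m) = Pr A φ (n * m) * Pr A 0 φ := by rw [Pr_add, Nat.zero_add]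
  have h2 : Pr A 0 (n * m + φ) = Pr A 0 φ := by
    rw [Pr_add, Pr_shift hper, htor, mul_one]
  rw [Nat.add_comm, h2] at h1
  exact (mul_eq_right.mp h1.symm)

theorem Pr_one_mul (hper : ∀ i, A (i + n) = A i) {m : ℕ} (htor : Pr A 0 (n * m) = 1) (φ t : ℕ) :
    Pr A φ (n * m * t) = 1 := by
  rw [Nat.mul_assoc, Pr_pow hper, pow_mul, ← Pr_pow hper, Pr_one_all hper htor, one_pow]

variable (S A) in
/-- Maximal stable balls. -/
def MS (φ : ℕ) (B : Set X) : Prop :=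
  S.Ball B ∧ (∀ j, Gd S A φ B j) ∧ ∀ E, S.Ball E → B ⊂ E → ¬ ∀ j, Gd S A φ E j

theorem MS.move (hper : ∀ i, A (i + n) = A i) (hn : 0 < n) {m : ℕ} (hm : 0 < m)
    (htor : Pr A 0 (n * m) = 1) {φ : ℕ} {B : Set X} (h : MS S A φ B) (j : ℕ) :
    MS S A (φ + j) (Pr A φ j '' B) := by
  refine ⟨(h.2.1 j).ball, fun i => (h.2.1 (j + i)).tail, ?_⟩
  intro E hE hBE hall
  have hL : 0 < n * m := Nat.mul_pos hn hm
  have hle : j ≤ n * m * (j + 1) := by nlinarith
  obtain ⟨i, hi⟩ := Nat.exists_eq_add_of_le hle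
  have h1 : Pr A φ (j + i) = 1 := by rw [← hi]; exact Pr_one_mul hper htor φ (j + 1)
  have h2 : B = Pr A (φ + j) i '' (Pr A φ j '' B) := by
    rw [← Pr_img, h1]; simp
  have h3 : B ⊂ Pr A (φ + j) i '' E := by
    constructor
    · conv_lhs => rw [h2]
      exact Set.image_mono hBE.1
    · intro hc
      rw [h2] at hc
      exact hBE.2 ((Set.image_subset_image_iff (Pr A (φ + j) i).injective).mp hc)
  refine h.2.2 _ (hall i).ball h3 ?_
  intro t
  have h4 : Gd S A (φ + j + i) (Pr A (φ + j) i '' E) t := (hall (i + t)).tail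
  rw [Nat.add_assoc, ← hi, Nat.mul_assoc, Gd_shift hper] at h4
  exact h4

variable {P : Set (Set X)} (hPb : ∀ p ∈ P, S.Ball p) (hPc : ∀ x, ∃ p ∈ P, x ∈ p)

section
variable (hper : ∀ i, A (i + n) = A i) (hn : 0 < n) (hK : (KK S P).Finite)
    (hA : ∀ i, ∀ p ∈ P, S.LS (A i) p) (κ : ℕ)
    (hκ : ∀ i, ∀ K ∈ KK S P, S.LS (A i) K → ∀ E, rk S (A i '' K) E ≤ κ)
    {m : ℕ} (hm : 0 < m) (htor : Pr A 0 (n * m) = 1)

include hPb hPc hper hn hK hA hκ hm htor

theorem MS.hyp {φ : ℕ} {B : Set X} (h : MS S A φ B) (j : ℕ) (E : Set X) (hE : E ∈ KK S P)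
    (hBE : Pr A φ j '' B ⊂ E) :
    ∃ v ≤ (κ + 2) ^ (n * (KK S P).ncard), Tv S A (φ + j) E v := by
  obtain ⟨v, hv⟩ := exists_Tv hE.1 ((h.move hper hn hm htor j).2.2 E hE.1 hBE)
  exact ⟨v, vals_bound hPb hPc hper hn hK hA κ hκ hE hv, hv⟩

theorem MS.ret {φ : ℕ} {C : Set X} (h : MS S A φ C) (hC : C ∈ KK S P) :
    ∃ j, 1 ≤ j ∧ j ≤ 1 + κ * (κ + 2) ^ (n * (KK S P).ncard) ∧ Pr A φ j '' C ∈ KK S P := by
  by_cases hin : Pr A φ 1 '' C ∈ KK S P
  · exact ⟨1, le_rfl, by omega, hin⟩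
  · have hG1 : Gd S A φ C 1 := h.2.1 1
    have hA1 : S.LS (A φ) C := by
      have := hG1 1 le_rfl
      simpa [Pr] using this
    have hK1 : Pr A φ 1 '' C = A φ '' C := by simp [Pr]
    obtain ⟨p, hp, hBp⟩ := small hPb hPc hG1.ball hin
    have h1 := h.move hper hn hm htor 1
    obtain ⟨j, hj, h2, h3⟩ := FS.ret hPb hPc hA ((κ + 2) ^ (n * (KK S P).ncard)) κ (φ + 1) _ p
      hG1.ball (mem_KK hPb hp) hBp.1 (by rw [hK1]; exact hκ φ C hC hA1 p)
      (fun j E' _ h5 h6 => h1.hyp hPb hPc hper hn hK hA κ hκ hm htor j E' h5 h6)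
    exact ⟨1 + j, by omega, by omega, by rw [Pr_img]; exact h3⟩

theorem MS.arrive {φ : ℕ} {B : Set X} (h : MS S A φ B) : ∃ j, Pr A φ j '' B ∈ KK S P := by
  by_cases hin : B ∈ KK S P
  · exact ⟨0, by simpa [Pr] using hin⟩
  · obtain ⟨p, hp, hBp⟩ := small hPb hPc h.1 hin
    obtain ⟨j, _, _, h3⟩ := FS.ret hPb hPc hA ((κ + 2) ^ (n * (KK S P).ncard)) (rk S B p) φ _ p
      h.1 (mem_KK hPb hp) hBp.1 le_rfl
      (fun j E' _ h5 h6 => h.hyp hPb hPc hper hn hK hA κ hκ hm htor j E' h5 h6)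
    exact ⟨j, h3⟩

theorem MS.period {φ : ℕ} {C : Set X} (h : MS S A φ C) (hC : C ∈ KK S P) (M : ℕ)
    (hM : ∀ C ∈ KK S P, ({r : C → X | ∃ g : Equiv.Perm X, S.LS g C ∧ g '' C ∈ KK S P ∧
      r = fun y : C => g (y : X)}).ncard ≤ M) :
    ∃ c, 0 < c ∧ c ≤ M * (1 + κ * (κ + 2) ^ (n * (KK S P).ncard)) ∧
      ∀ y ∈ C, Pr A φ (n * c) y = y := by
  classical
  set R := 1 + κ * (κ + 2) ^ (n * (KK S P).ncard) with hR
  have step : ∀ j : {j : ℕ // Pr A φ j '' C ∈ KK S P}, ∃ j' : {j : ℕ // Pr A φ j '' C ∈ KK S P},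
      j.1 < j'.1 ∧ j'.1 ≤ j.1 + R := by
    rintro ⟨j, hj⟩
    obtain ⟨i, h1, h2, h3⟩ := (h.move hper hn hm htor j).ret hPb hPc hper hn hK hA κ hκ hm htor hj
    refine ⟨⟨j + i, by rw [Pr_img]; exact h3⟩, ?_, ?_⟩
    · show j < j + i
      omega
    · show j + i ≤ j + R
      omega
  choose nx hnx using step
  let σ : ℕ → {j : ℕ // Pr A φ j '' C ∈ KK S P} :=
    fun t => Nat.rec ⟨0, by simpa [Pr] using hC⟩ (fun _ j => nx j) t
  have hσ0 : (σ 0).1 = 0 := rfl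
  have hσs : ∀ t, σ (t + 1) = nx (σ t) := fun t => rfl
  have hmono : StrictMono (fun t => (σ t).1) := by
    refine strictMono_nat_of_lt_succ fun t => ?_
    show (σ t).1 < (σ (t + 1)).1
    rw [hσs]
    exact (hnx (σ t)).1
  have hbd : ∀ t, (σ t).1 ≤ t * R := by
    intro t
    induction t with
    | zero => simp [hσ0]
    | succ t ih =>
      rw [hσs]
      have := (hnx (σ t)).2
      calc (nx (σ t)).1 ≤ (σ t).1 + R := this
        _ ≤ t * R + R := by omega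
        _ = (t + 1) * R := by ring
  have hFin : ({r : C → X | ∃ g : Equiv.Perm X, S.LS g C ∧ g '' C ∈ KK S P ∧
      r = fun y : C => g (y : X)}).Finite := by
    refine (hK.biUnion fun C' _ => S.fin C C').subset ?_
    rintro r ⟨g, h1, h2, h3⟩
    exact Set.mem_biUnion h2 ⟨g, h1, rfl, h3⟩
  have hcard : (Finset.range n ×ˢ hFin.toFinset).card < (Finset.range (n * M + 1)).card := by
    rw [Finset.card_product, Finset.card_range, Finset.card_range,
      ← Set.ncard_eq_toFinset_card _ hFin]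
    have := Nat.mul_le_mul_left n (hM C hC)
    omega
  obtain ⟨t1, ht1, t2, ht2, hne, heq⟩ := Finset.exists_ne_map_eq_of_card_lt_of_maps_to hcard
    (f := fun t => ((σ t).1 % n, fun y : C => Pr A φ (σ t).1 (y : X))) (by
      intro t _
      rw [Finset.mem_coe, Finset.mem_product]
      refine ⟨Finset.mem_range.mpr (Nat.mod_lt _ hn), hFin.mem_toFinset.mpr ?_⟩
      exact ⟨Pr A φ (σ t).1, h.2.1 _ _ le_rfl, (σ t).2, rfl⟩)
  -- reduce to t1 < t2
  have key : ∀ t1 t2 : ℕ, t1 < t2 → t2 ≤ n * M →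
      ((σ t1).1 % n, fun y : C => Pr A φ (σ t1).1 (y : X)) =
        ((σ t2).1 % n, fun y : C => Pr A φ (σ t2).1 (y : X)) →
      ∃ c, 0 < c ∧ c ≤ M * R ∧ ∀ y ∈ C, Pr A φ (n * c) y = y := by
    intro t1 t2 hlt ht2 heq
    have h1 : (σ t1).1 < (σ t2).1 := hmono hlt
    have h2 : (σ t1).1 % n = (σ t2).1 % n := congrArg Prod.fst heq
    have h3 : ∀ y : C, Pr A φ (σ t1).1 (y : X) = Pr A φ (σ t2).1 (y : X) := fun y =>
      congrFun (congrArg Prod.snd heq) y
    obtain ⟨c, hc⟩ : n ∣ (σ t2).1 - (σ t1).1 :=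
      (Nat.modEq_iff_dvd' h1.le).mp h2
    have hc' : (σ t2).1 = n * c + (σ t1).1 := by omega
    have hc0 : 0 < c := by
      rcases Nat.eq_zero_or_pos c with h0 | h0
      · subst h0
        simp at hc'
        omega
      · exact h0
    refine ⟨c, hc0, ?_, ?_⟩
    · have h4 : n * c ≤ n * (M * R) := by
        calc n * c ≤ (σ t2).1 := by omega
          _ ≤ t2 * R := hbd t2
          _ ≤ n * M * R := Nat.mul_le_mul_right R ht2
          _ = n * (M * R) := by ring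
      exact Nat.le_of_mul_le_mul_left h4 hn
    · intro y hy
      have h4 := h3 ⟨y, hy⟩
      simp only at h4
      rw [hc', Pr_add, Pr_shift hper, Equiv.Perm.mul_apply] at h4
      exact ((Pr A φ (σ t1).1).injective h4).symm
  rcases lt_or_gt_of_ne hne with hlt | hlt
  · exact key t1 t2 hlt (by have := Finset.mem_range.mp ht2; omega) heq
  · exact key t2 t1 hlt (by have := Finset.mem_range.mp ht1; omega) heq.symm

/-- The abstract bound. -/
theorem abstract_bound (M : ℕ)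
    (hM : ∀ C ∈ KK S P, ({r : C → X | ∃ g : Equiv.Perm X, S.LS g C ∧ g '' C ∈ KK S P ∧
      r = fun y : C => g (y : X)}).ncard ≤ M)
    (hloc : ∀ j x, ∃ B, x ∈ B ∧ S.Ball B ∧ S.LS (Pr A 0 j) B) :
    ∃ D, 0 < D ∧ D ≤ (M * (1 + κ * (κ + 2) ^ (n * (KK S P).ncard)) + 1) ^ (n * (KK S P).ncard) ∧
      (Pr A 0 n) ^ D = 1 := by
  classical
  have hper' := fun {φ : ℕ} {C : Set X} (h : MS S A φ C) (hC : C ∈ KK S P) =>
    h.period hPb hPc hper hn hK hA κ hκ hm htor hC M hM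
  set R := M * (1 + κ * (κ + 2) ^ (n * (KK S P).ncard)) with hR
  let c : ℕ × Set X → ℕ := fun a =>
    if h : MS S A a.1 a.2 ∧ a.2 ∈ KK S P then Classical.choose (hper' h.1 h.2) else 1
  have hc1 : ∀ a, 0 < c a := by
    intro a
    by_cases h : MS S A a.1 a.2 ∧ a.2 ∈ KK S P
    · have : c a = Classical.choose (hper' h.1 h.2) := dif_pos h
      rw [this]
      exact (Classical.choose_spec (hper' h.1 h.2)).1
    · have : c a = 1 := dif_neg h
      rw [this]; exact one_pos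
  have hc2 : ∀ a, c a ≤ R + 1 := by
    intro a
    by_cases h : MS S A a.1 a.2 ∧ a.2 ∈ KK S P
    · have : c a = Classical.choose (hper' h.1 h.2) := dif_pos h
      rw [this]
      exact (Classical.choose_spec (hper' h.1 h.2)).2.1.trans (Nat.le_succ _)
    · have : c a = 1 := dif_neg h
      rw [this]; omega
  have hc3 : ∀ φ C, MS S A φ C → C ∈ KK S P → ∀ y ∈ C, Pr A φ (n * c (φ, C)) y = y := by
    intro φ C h hC
    have : c (φ, C) = Classical.choose (hper' h hC) :=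
      dif_pos (show MS S A (φ, C).1 (φ, C).2 ∧ (φ, C).2 ∈ KK S P from ⟨h, hC⟩)
    rw [this]
    exact (Classical.choose_spec (hper' h hC)).2.2
  let T : Finset (ℕ × Set X) := Finset.range n ×ˢ hK.toFinset
  refine ⟨∏ a ∈ T, c a, Finset.prod_pos fun a _ => hc1 a, ?_, ?_⟩
  · have hT : T.card = n * (KK S P).ncard := by
      rw [Finset.card_product, Finset.card_range, Set.ncard_eq_toFinset_card _ hK]
    calc ∏ a ∈ T, c a ≤ (R + 1) ^ T.card := Finset.prod_le_pow_card _ _ _ fun a _ => hc2 a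
      _ = _ := by rw [hT]
  · ext x
    rw [← Pr_pow hper]
    -- a stable ball
    have hst : ∀ j, ∃ B, x ∈ B ∧ S.Ball B ∧ ∀ i < j, S.LS (Pr A 0 i) B := by
      intro j
      induction j with
      | zero =>
        obtain ⟨B, h1, h2, _⟩ := hloc 0 x
        exact ⟨B, h1, h2, fun i hi => absurd hi (Nat.not_lt_zero i)⟩
      | succ j ih =>
        obtain ⟨B, h1, h2, h3⟩ := ih
        obtain ⟨B', h1', h2', h3'⟩ := hloc j x
        rcases S.laminar B B' h2 h2' ⟨x, h1, h1'⟩ with hs | hs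
        · refine ⟨B, h1, h2, fun i hi => ?_⟩
          rcases Nat.lt_succ_iff_lt_or_eq.mp hi with h4 | h4
          · exact h3 i h4
          · rw [h4]; exact S.res _ _ _ h3' h2 hs
        · refine ⟨B', h1', h2', fun i hi => ?_⟩
          rcases Nat.lt_succ_iff_lt_or_eq.mp hi with h4 | h4
          · exact S.res _ _ _ (h3 i h4) h2' hs
          · rw [h4]; exact h3'
    obtain ⟨B₀, hx0, hB0, hB0'⟩ := hst (n * m)
    have hL : 0 < n * m := Nat.mul_pos hn hm
    have hst0 : ∀ j, Gd S A 0 B₀ j := by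
      intro j i _
      have h1 : Pr A 0 i = Pr A 0 (i % (n * m)) := by
        conv_lhs => rw [← Nat.div_add_mod i (n * m)]
        rw [Pr_add, Pr_one_mul hper htor, mul_one, Nat.mul_assoc, Pr_shift hper]
      rw [h1]
      exact hB0' _ (Nat.mod_lt _ hL)
    have hfin : {B' | S.Ball B' ∧ B₀ ⊆ B' ∧ ∀ j, Gd S A 0 B' j}.Finite :=
      (S.fin_above B₀ hB0).subset fun B' h => ⟨h.1, h.2.1⟩
    obtain ⟨B, hB⟩ := hfin.exists_maximal ⟨B₀, hB0, le_rfl, hst0⟩
    have hMS : MS S A 0 B := by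
      refine ⟨hB.prop.1, hB.prop.2.2, ?_⟩
      intro E hE hBE hall
      exact hBE.2 (hB.le_of_ge ⟨hE, hB.prop.2.1.trans hBE.1, hall⟩ hBE.1)
    have hxB : x ∈ B := hB.prop.2.1 hx0
    obtain ⟨j, hj⟩ := hMS.arrive hPb hPc hper hn hK hA κ hκ hm htor
    have hMj := hMS.move hper hn hm htor j
    rw [Nat.zero_add] at hMj
    have hMj' : MS S A (j % n) (Pr A 0 j '' B) := by
      simp only [MS, Gd_mod hper]
      exact hMj
    have hmem : ((j % n, Pr A 0 j '' B) : ℕ × Set X) ∈ T :=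
      Finset.mem_product.mpr ⟨Finset.mem_range.mpr (Nat.mod_lt _ hn), hK.mem_toFinset.mpr hj⟩
    obtain ⟨e, he⟩ := Finset.dvd_prod_of_mem c hmem
    have hfix : ∀ y ∈ Pr A 0 j '' B, Pr A j (n * ∏ a ∈ T, c a) y = y := by
      intro y hy
      have h1 := hc3 _ _ hMj' hj y hy
      have h2 : ∀ e, ((Pr A (j % n) (n * c (j % n, Pr A 0 j '' B))) ^ e) y = y := by
        intro e
        induction e with
        | zero => rfl
        | succ e ih => rw [pow_succ, Equiv.Perm.mul_apply, h1, ih]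
      have h3 : Pr A j (n * ∏ a ∈ T, c a) =
          (Pr A (j % n) (n * c (j % n, Pr A 0 j '' B))) ^ e := by
        rw [he, Pr_mod hper, Pr_pow hper, Pr_pow hper, pow_mul]
      rw [h3]
      exact h2 e
    have h1 := hfix (Pr A 0 j x) (Set.mem_image_of_mem _ hxB)
    have h2 : Pr A 0 j (Pr A 0 (n * ∏ a ∈ T, c a) x) = Pr A 0 j x := by
      have e1 : Pr A 0 (n * ∏ a ∈ T, c a + j) = Pr A 0 j * Pr A 0 (n * ∏ a ∈ T, c a) := by
        rw [Pr_add, Pr_shift hper]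
      have e2 : Pr A 0 (j + n * ∏ a ∈ T, c a) = Pr A j (n * ∏ a ∈ T, c a) * Pr A 0 j := by
        rw [Pr_add, Nat.zero_add]
      rw [Nat.add_comm, e2] at e1
      rw [← Equiv.Perm.mul_apply, ← e1, Equiv.Perm.mul_apply]
      exact h1
    rw [Equiv.Perm.one_apply]
    exact (Pr A 0 j).injective h2

end

end Pool.Agent.TH297.FS
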